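import Pool.Agent.Lib.helper3.KBridge

namespace Pool.Agent.Results.MP_e07d6f_an.NotHereditary

open Pool.Agent.Lib.helper3.KS

theorem result : (∃ E : Ban, ¬ Hereditary (K E)) ∧ ∃ E : Ban, ¬ Hereditary (K E).op :=
  ⟨not_left.imp fun _ h h' => h h'.proj, not_right.imp fun _ h h' => h h'.proj⟩

end Pool.Agent.Results.MP_e07d6f_an.NotHereditary
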