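import Pool.Agent.Lib.helper3.KBridge

namespace Pool.Agent.Results.MP_e07d6f_an.NotProjective

open Pool.Agent.Lib.helper3.KS

theorem result : (∃ E : Ban, ¬ ProjL (reg (K E))) ∧ ∃ E : Ban, ¬ ProjL (reg (K E).op) :=
  ⟨not_left.imp fun _ h h' => h h'.toR, not_right.imp fun _ h h' => h h'.toR⟩

end Pool.Agent.Results.MP_e07d6f_an.NotProjective
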